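import Pool.Agent.MP_35f30a_al.Fox

/-!
# The filtration of Laurent polynomials and perturbations of the generic commuting point
-/

set_option autoImplicit false
set_option linter.unusedSectionVars false

open scoped TensorProduct
open LaurentPolynomial

namespace Pool.Agent.MP_35f30a_al

section Fil

variable {E : Type*} [Ring E]

/-- Laurent polynomials over `E` all of whose exponents are `≥ n`. -/
def Fil (E : Type*) [Ring E] (n : ℤ) : AddSubgroup E[T;T⁻¹] where
  carrier := {f | ∃ g : Polynomial E, f = T n * Polynomial.toLaurent g}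
  zero_mem' := ⟨0, by simp⟩
  add_mem' := by
    rintro _ _ ⟨g, rfl⟩ ⟨h, rfl⟩
    exact ⟨g + h, by rw [map_add, mul_add]⟩
  neg_mem' := by
    rintro _ ⟨g, rfl⟩
    exact ⟨-g, by rw [map_neg, mul_neg]⟩

lemma mem_Fil {n : ℤ} {f : E[T;T⁻¹]} :
    f ∈ Fil E n ↔ ∃ g : Polynomial E, f = T n * Polynomial.toLaurent g := Iff.rfl

lemma Fil_mul {n m : ℤ} {f g : E[T;T⁻¹]} (hf : f ∈ Fil E n) (hg : g ∈ Fil E m) :
    f * g ∈ Fil E (n + m) := by
  obtain ⟨f, rfl⟩ := hf
  obtain ⟨g, rfl⟩ := hg
  refine ⟨f * g, ?_⟩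
  rw [T_add, map_mul]
  calc T n * Polynomial.toLaurent f * (T m * Polynomial.toLaurent g)
      = T n * (Polynomial.toLaurent f * T m) * Polynomial.toLaurent g := by
        simp only [mul_assoc]
    _ = T n * (T m * Polynomial.toLaurent f) * Polynomial.toLaurent g := by
        rw [(commute_T m _).eq]
    _ = _ := by simp only [mul_assoc]

lemma Fil_succ {n : ℤ} {f : E[T;T⁻¹]} (hf : f ∈ Fil E (n + 1)) : f ∈ Fil E n := by
  obtain ⟨f, rfl⟩ := hf
  refine ⟨Polynomial.X * f, ?_⟩
  rw [T_add, map_mul, Polynomial.toLaurent_X, mul_assoc]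

lemma Fil_mono {n m : ℤ} (h : n ≤ m) {f : E[T;T⁻¹]} (hf : f ∈ Fil E m) : f ∈ Fil E n := by
  obtain ⟨d, rfl⟩ := Int.le.dest h
  induction d with
  | zero => simpa using hf
  | succ d ih =>
    have h' : n + ((d + 1 : ℕ) : ℤ) = (n + d) + 1 := by push_cast; ring
    rw [h'] at hf
    exact ih (by omega) (Fil_succ hf)

lemma T_mem (n : ℤ) : (T n : E[T;T⁻¹]) ∈ Fil E n := ⟨1, by simp⟩

lemma C_mem (e : E) : (C e : E[T;T⁻¹]) ∈ Fil E 0 := ⟨Polynomial.C e, by simp⟩

lemma exists_lead {n : ℤ} {f : E[T;T⁻¹]} (hf : f ∈ Fil E n) :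
    ∃ e : E, f - T n * C e ∈ Fil E (n + 1) := by
  obtain ⟨g, rfl⟩ := hf
  refine ⟨g.coeff 0, g.divX, ?_⟩
  have h := Polynomial.divX_mul_X_add g
  have h2 : Polynomial.toLaurent g = Polynomial.toLaurent g.divX * T 1 + C (g.coeff 0) := by
    conv_lhs => rw [← h]
    rw [map_add, map_mul, Polynomial.toLaurent_X, Polynomial.toLaurent_C]
  rw [T_add, h2, (commute_T 1 (Polynomial.toLaurent g.divX)).eq.symm]
  rw [mul_add, add_sub_cancel_right, mul_assoc]

lemma one_notMem [Nontrivial E] : (1 : E[T;T⁻¹]) ∉ Fil E 1 := by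
  rintro ⟨g, hg⟩
  have h : Polynomial.toLaurent (1 : Polynomial E) = Polynomial.toLaurent (Polynomial.X * g) := by
    rw [map_one, map_mul, Polynomial.toLaurent_X]
    exact hg
  have h2 := Polynomial.toLaurent_injective h
  have h3 := congrArg (fun p => Polynomial.coeff p 0) h2
  simp at h3

end Fil

section Pert

variable {k : Type*} [Field k] {X : Type*} {E : Type*} [Ring E] [Algebra k E]
  (ρ : MvPolynomial X k →ₐ[k] E) (x0 : X) (m : ℤ)

open Classical in
/-- the point `x_i = t_i` for `i ≠ x0`, `x_{x0} = t_{x0} + T^m Z`, where `t_i = ρ(x_i)`. -/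
noncomputable def pert (Z : E[T;T⁻¹]) : FreeAlgebra k X →ₐ[k] E[T;T⁻¹] :=
  FreeAlgebra.lift k fun x => C (ρ (MvPolynomial.X x)) + if x = x0 then T m * Z else 0

open Classical in
lemma pert_ι (Z : E[T;T⁻¹]) (x : X) : pert ρ x0 m Z (FreeAlgebra.ι k x) =
    C (ρ (MvPolynomial.X x)) + if x = x0 then T m * Z else 0 := by
  simp [pert]

lemma algebraMap_eq (r : k) :
    algebraMap k E[T;T⁻¹] r = C (algebraMap k E r) :=
  LaurentPolynomial.algebraMap_apply r

variable {x0 m}

lemma pert_mem (hm : 0 ≤ m) {Z : E[T;T⁻¹]} (hZ : Z ∈ Fil E 0) (f : FreeAlgebra k X) :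
    pert ρ x0 m Z f ∈ Fil E 0 := by
  classical
  induction f using FreeAlgebra.induction with
  | grade0 r =>
    rw [AlgHom.commutes, algebraMap_eq]
    exact C_mem _
  | grade1 x =>
    rw [pert_ι]
    refine add_mem (C_mem _) ?_
    split_ifs
    · exact Fil_mono (by omega) (Fil_mul (T_mem m) hZ)
    · exact zero_mem _
  | mul f g hf hg =>
    rw [map_mul]
    simpa using Fil_mul hf hg
  | add f g hf hg =>
    rw [map_add]
    exact add_mem hf hg

lemma pert_sub_mem (hm : 0 ≤ m) {Z : E[T;T⁻¹]} (hZ : Z ∈ Fil E 0) (f : FreeAlgebra k X) :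
    pert ρ x0 m Z f - C (ρ (abel k X f)) ∈ Fil E m := by
  classical
  induction f using FreeAlgebra.induction with
  | grade0 r =>
    rw [AlgHom.commutes, AlgHom.commutes, AlgHom.commutes, algebraMap_eq, sub_self]
    exact zero_mem _
  | grade1 x =>
    rw [pert_ι, abel_ι, add_sub_cancel_left]
    split_ifs
    · simpa using Fil_mul (T_mem m) hZ
    · exact zero_mem _
  | mul f g hf hg =>
    have h1 := Fil_mul hf (pert_mem ρ (x0 := x0) hm hZ g)
    have h2 := Fil_mul (C_mem (ρ (abel k X f))) hg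
    rw [add_zero] at h1
    rw [zero_add] at h2
    have h3 := add_mem h1 h2
    rw [map_mul, map_mul, map_mul, map_mul]
    convert h3 using 1
    noncomm_ring
  | add f g hf hg =>
    have h3 := add_mem hf hg
    rw [map_add, map_add, map_add, map_add]
    convert h3 using 1
    abel

lemma pert_comm_mem (hm : 0 ≤ m) {Z : E[T;T⁻¹]} (hZ : Z ∈ Fil E 0) {f : FreeAlgebra k X}
    (hf : f ∈ commIdeal k X) : pert ρ x0 m Z f ∈ Fil E m := by
  have h := pert_sub_mem ρ (x0 := x0) hm hZ f
  rw [mem_commIdeal] at hf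
  simpa [hf] using h

lemma pert_diff_mem (hm : 0 ≤ m) {n : ℤ} {Z Z' : E[T;T⁻¹]} (hZ : Z ∈ Fil E 0)
    (hZ' : Z' ∈ Fil E 0) (hd : Z' - Z ∈ Fil E n) (f : FreeAlgebra k X) :
    pert ρ x0 m Z' f - pert ρ x0 m Z f ∈ Fil E (m + n) := by
  classical
  induction f using FreeAlgebra.induction with
  | grade0 r =>
    rw [AlgHom.commutes, AlgHom.commutes, sub_self]
    exact zero_mem _
  | grade1 x =>
    rw [pert_ι, pert_ι, add_sub_add_left_eq_sub]
    split_ifs
    · rw [← mul_sub]
      exact Fil_mul (T_mem m) hd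
    · rw [sub_self]; exact zero_mem _
  | mul f g hf hg =>
    have h1 := Fil_mul hf (pert_mem ρ (x0 := x0) hm hZ g)
    have h2 := Fil_mul (pert_mem ρ (x0 := x0) hm hZ' f) hg
    rw [add_zero] at h1
    rw [zero_add] at h2
    have h3 := add_mem h1 h2
    rw [map_mul, map_mul]
    convert h3 using 1
    noncomm_ring
  | add f g hf hg =>
    have h3 := add_mem hf hg
    rw [map_add, map_add]
    convert h3 using 1
    abel

lemma pert_pow_mem (hm : 0 ≤ m) {n : ℤ} {Z Z' : E[T;T⁻¹]} (hZ : Z ∈ Fil E 0)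
    (hZ' : Z' ∈ Fil E 0) (hd : Z' - Z ∈ Fil E n) (j : ℕ) :
    ∀ f ∈ commIdeal k X ^ (j + 1), pert ρ x0 m Z f ∈ Fil E (m * (j + 1)) ∧
      pert ρ x0 m Z' f - pert ρ x0 m Z f ∈ Fil E (m * (j + 1) + n) := by
  induction j with
  | zero =>
    intro f hf
    rw [zero_add, pow_one] at hf
    simp only [Nat.cast_zero, zero_add, mul_one]
    exact ⟨pert_comm_mem ρ hm hZ hf, pert_diff_mem ρ hm hZ hZ' hd f⟩
  | succ j ih =>
    intro f hf
    rw [pow_succ'] at hf
    induction hf using Submodule.mul_induction_on' with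
    | mem_mul_mem g hg h hh =>
      obtain ⟨i1, i2⟩ := ih h hh
      have g1 := pert_comm_mem ρ (x0 := x0) hm hZ hg
      have g1' := pert_comm_mem ρ (x0 := x0) hm hZ' hg
      have g2 := pert_diff_mem ρ (x0 := x0) hm hZ hZ' hd g
      constructor
      · rw [map_mul]
        have := Fil_mul g1 i1
        convert this using 2
        push_cast; ring
      · have a1 := Fil_mul g2 i1
        have a2 := Fil_mul g1' i2
        have e1 : m + n + m * ((j : ℤ) + 1) = m * (((j + 1 : ℕ) : ℤ) + 1) + n := by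
          push_cast; ring
        have e2 : m + (m * ((j : ℤ) + 1) + n) = m * (((j + 1 : ℕ) : ℤ) + 1) + n := by
          push_cast; ring
        rw [e1] at a1
        rw [e2] at a2
        have a3 := add_mem a1 a2
        rw [map_mul, map_mul]
        convert a3 using 1
        noncomm_ring
    | add g _ h _ hg hh =>
      refine ⟨by rw [map_add]; exact add_mem hg.1 hh.1, ?_⟩
      have := add_mem hg.2 hh.2
      rw [map_add, map_add]
      convert this using 1
      abel

/-- first order expansion of the perturbation, `L` being the derivation in direction `H`. -/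
lemma pert_first_order (hm : 0 < m) {n : ℤ} (hn : 0 ≤ n) {Z : E[T;T⁻¹]} (hZ : Z ∈ Fil E 0)
    (H : E) (L : FreeAlgebra k X → E) (hL0 : ∀ r : k, L (algebraMap k _ r) = 0)
    (hL1 : L (FreeAlgebra.ι k x0) = H) (hL2 : ∀ x, x ≠ x0 → L (FreeAlgebra.ι k x) = 0)
    (hLa : ∀ f g, L (f + g) = L f + L g)
    (hLm : ∀ f g, L (f * g) = ρ (abel k X f) * L g + L f * ρ (abel k X g))
    (f : FreeAlgebra k X) :
    pert ρ x0 m (Z + T n * C H) f - pert ρ x0 m Z f - T (m + n) * C (L f) ∈
      Fil E (m + n + 1) := by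
  classical
  have hZ' : Z + T n * C H ∈ Fil E 0 :=
    add_mem hZ (Fil_mono hn (by simpa using Fil_mul (T_mem n) (C_mem H)))
  have hd : Z + T n * C H - Z ∈ Fil E n := by
    rw [add_sub_cancel_left]
    simpa using Fil_mul (T_mem n) (C_mem H)
  induction f using FreeAlgebra.induction with
  | grade0 r =>
    rw [AlgHom.commutes, AlgHom.commutes, hL0, map_zero, mul_zero, sub_self, sub_zero]
    exact zero_mem _
  | grade1 x =>
    rw [pert_ι, pert_ι, add_sub_add_left_eq_sub]
    by_cases hx : x = x0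
    · rw [if_pos hx, if_pos hx, hx, hL1, mul_add, add_sub_cancel_left, ← mul_assoc, ← T_add,
        sub_self]
      exact zero_mem _
    · rw [if_neg hx, if_neg hx, hL2 x hx, map_zero, mul_zero, sub_self, sub_zero]
      exact zero_mem _
  | mul f g hf hg =>
    have f1 := pert_sub_mem ρ (x0 := x0) hm.le hZ' f
    have g1 := pert_sub_mem ρ (x0 := x0) hm.le hZ g
    have g0 := pert_mem ρ (x0 := x0) hm.le hZ g
    have f0 := pert_mem ρ (x0 := x0) hm.le hZ' f
    have dg := pert_diff_mem ρ (x0 := x0) hm.le hZ hZ' hd g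
    -- four error terms
    have a1 := Fil_mul f0 hg
    have a2 := Fil_mul hf g0
    have a3 : (pert ρ x0 m (Z + T n * C H) f - C (ρ (abel k X f))) * (T (m + n) * C (L g)) ∈
        Fil E (m + n + 1) := by
      have := Fil_mul f1 (Fil_mul (T_mem (m + n)) (C_mem (L g)))
      exact Fil_mono (by omega) this
    have a4 : (T (m + n) * C (L f)) * (pert ρ x0 m Z g - C (ρ (abel k X g))) ∈
        Fil E (m + n + 1) := by
      have := Fil_mul (Fil_mul (T_mem (m + n)) (C_mem (L f))) g1
      exact Fil_mono (by omega) this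
    rw [zero_add] at a1
    rw [add_zero] at a2
    have a5 := add_mem (add_mem a1 a2) (add_mem a3 a4)
    rw [map_mul, map_mul, hLm, map_add, map_mul C, map_mul C]
    convert a5 using 1
    have hc : T (m + n) * (C (ρ (abel k X f)) * C (L g)) =
        C (ρ (abel k X f)) * (T (m + n) * C (L g)) := by
      rw [← mul_assoc, (commute_T (m + n) _).eq, mul_assoc]
    rw [mul_add, hc]
    noncomm_ring
  | add f g hf hg =>
    have h3 := add_mem hf hg
    rw [map_add, map_add, hLa, map_add, mul_add]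
    convert h3 using 1
    abel

end Pert

end Pool.Agent.MP_35f30a_al
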