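import Mathlib

/-!
# Noncommutative partial derivatives at the generic commuting point

For `f` in the free algebra, `fox x f ∈ k[X] ⊗ k[X]` is the sum of `u ⊗ v` over all occurrences
`u x v` of the letter `x` in `f`, evaluated at commuting variables.  If `f` lies in the commutator
ideal `C` and all `fox x f` vanish, then `f ∈ C²`.
-/

set_option autoImplicit false
set_option linter.unusedSectionVars false

open scoped TensorProduct

namespace Pool.Agent.MP_35f30a_al

variable (k : Type*) [Field k] (X : Type*)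

/-- the abelianisation map `k⟨X⟩ → k[X]`. -/
noncomputable def abel : FreeAlgebra k X →ₐ[k] MvPolynomial X k :=
  FreeAlgebra.lift k MvPolynomial.X

/-- the commutator ideal of `k⟨X⟩`: the kernel of the abelianisation map `k⟨X⟩ → k[X]`. -/
noncomputable def commIdeal : Submodule k (FreeAlgebra k X) :=
  LinearMap.ker (abel k X).toLinearMap

variable {k X}

@[simp] lemma abel_ι (x : X) : abel k X (FreeAlgebra.ι k x) = MvPolynomial.X x := by
  simp [abel]

lemma mem_commIdeal {f : FreeAlgebra k X} : f ∈ commIdeal k X ↔ abel k X f = 0 := by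
  simp [commIdeal, LinearMap.mem_ker]

lemma abel_surjective : Function.Surjective (abel k X) := by
  intro p
  induction p using MvPolynomial.induction_on with
  | C a => exact ⟨algebraMap k _ a, by simp⟩
  | add p q hp hq =>
    obtain ⟨f, rfl⟩ := hp
    obtain ⟨g, rfl⟩ := hq
    exact ⟨f + g, by simp⟩
  | mul_X p x hp =>
    obtain ⟨f, rfl⟩ := hp
    exact ⟨f * FreeAlgebra.ι k x, by simp⟩

/-- a linear section of `abel` with `σ 1 = 1`. -/
lemma exists_section : ∃ σ : MvPolynomial X k →ₗ[k] FreeAlgebra k X,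
    (∀ p, abel k X (σ p) = p) ∧ σ 1 = 1 := by
  obtain ⟨σ0, h0⟩ := LinearMap.exists_rightInverse_of_surjective (abel k X).toLinearMap
    (LinearMap.range_eq_top.mpr abel_surjective)
  have h0' : ∀ p, abel k X (σ0 p) = p := fun p => by
    have := LinearMap.congr_fun h0 p
    simpa using this
  refine ⟨σ0 - (LinearMap.toSpanSingleton k _ (σ0 1 - 1)).comp
    (MvPolynomial.lcoeff k (0 : X →₀ ℕ)), ?_, ?_⟩
  · intro p
    simp [h0']
  · simp

open Classical in
/-- the upper triangular representation defining `fox`. -/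
noncomputable def foxMat (x0 : X) : FreeAlgebra k X →ₐ[k]
    Matrix (Fin 2) (Fin 2) (MvPolynomial X k ⊗[k] MvPolynomial X k) :=
  FreeAlgebra.lift k fun x =>
    !![MvPolynomial.X x ⊗ₜ 1, if x = x0 then 1 else 0; 0, 1 ⊗ₜ MvPolynomial.X x]

lemma foxMat_aux (x0 : X) (f : FreeAlgebra k X) :
    foxMat x0 f 0 0 = abel k X f ⊗ₜ 1 ∧ foxMat x0 f 1 1 = 1 ⊗ₜ abel k X f ∧
      foxMat x0 f 1 0 = 0 := by
  induction f using FreeAlgebra.induction with
  | grade0 r =>
    refine ⟨?_, ?_, ?_⟩
    · rw [AlgHom.commutes, AlgHom.commutes, Matrix.algebraMap_matrix_apply, if_pos rfl]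
      rfl
    · rw [AlgHom.commutes, AlgHom.commutes, Matrix.algebraMap_matrix_apply, if_pos rfl,
        Algebra.TensorProduct.algebraMap_apply, Algebra.TensorProduct.tmul_one_eq_one_tmul]
    · rw [AlgHom.commutes, Matrix.algebraMap_matrix_apply, if_neg (by decide)]
  | grade1 x => simp [foxMat]
  | mul f g hf hg =>
    obtain ⟨f0, f1, f2⟩ := hf
    obtain ⟨g0, g1, g2⟩ := hg
    rw [map_mul]
    simp only [Matrix.mul_apply, Fin.sum_univ_two, f0, f1, f2, g0, g1, g2, map_mul]
    simp
  | add f g hf hg =>
    obtain ⟨f0, f1, f2⟩ := hf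
    obtain ⟨g0, g1, g2⟩ := hg
    rw [map_add]
    simp only [Matrix.add_apply, f0, f1, f2, g0, g1, g2, map_add]
    simp [TensorProduct.add_tmul, TensorProduct.tmul_add]

/-- the partial derivative of `f` with respect to the letter `x0`, evaluated at the generic
commuting point: the sum of `u ⊗ v ∈ k[X] ⊗ k[X]` over all occurrences `u x0 v` of `x0` in `f`. -/
noncomputable def fox (x0 : X) (f : FreeAlgebra k X) :
    MvPolynomial X k ⊗[k] MvPolynomial X k := foxMat x0 f 0 1

lemma fox_mul (x0 : X) (f g : FreeAlgebra k X) :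
    fox x0 (f * g) = (abel k X f ⊗ₜ 1) * fox x0 g + fox x0 f * (1 ⊗ₜ abel k X g) := by
  unfold fox
  rw [map_mul, Matrix.mul_apply, Fin.sum_univ_two, (foxMat_aux x0 f).1, (foxMat_aux x0 g).2.1]

lemma fox_add (x0 : X) (f g : FreeAlgebra k X) : fox x0 (f + g) = fox x0 f + fox x0 g := by
  unfold fox
  rw [map_add, Matrix.add_apply]

lemma fox_algebraMap (x0 : X) (r : k) : fox x0 (algebraMap k (FreeAlgebra k X) r) = 0 := by
  unfold fox
  rw [AlgHom.commutes, Matrix.algebraMap_matrix_apply, if_neg (by decide)]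

lemma fox_smul (x0 : X) (r : k) (f : FreeAlgebra k X) : fox x0 (r • f) = r • fox x0 f := by
  unfold fox
  rw [map_smul, Matrix.smul_apply]

open Classical in
lemma fox_ι (x0 x : X) : fox x0 (FreeAlgebra.ι k x) = if x = x0 then 1 else 0 := by
  simp [fox, foxMat]

lemma commIdeal_mul_left (f : FreeAlgebra k X) {c : FreeAlgebra k X} (hc : c ∈ commIdeal k X) :
    f * c ∈ commIdeal k X := by
  rw [mem_commIdeal] at hc ⊢
  rw [map_mul, hc, mul_zero]

lemma commIdeal_sq_mul_left (f : FreeAlgebra k X) {c : FreeAlgebra k X}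
    (hc : c ∈ commIdeal k X ^ 2) : f * c ∈ commIdeal k X ^ 2 := by
  rw [pow_two] at hc ⊢
  induction hc using Submodule.mul_induction_on' with
  | mem_mul_mem m hm n hn =>
    rw [← mul_assoc]
    exact Submodule.mul_mem_mul (commIdeal_mul_left f hm) hn
  | add x _ y _ hx hy =>
    rw [mul_add]
    exact add_mem hx hy

/-- auxiliary map `u ⊗ v ↦ σ(u) (x σ(v) - σ(x v))`. -/
noncomputable def gam (σ : MvPolynomial X k →ₗ[k] FreeAlgebra k X) (x : X) :
    MvPolynomial X k ⊗[k] MvPolynomial X k →ₗ[k] FreeAlgebra k X :=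
  TensorProduct.lift (LinearMap.mk₂ k
    (fun u v => σ u * (FreeAlgebra.ι k x * σ v - σ (MvPolynomial.X x * v)))
    (fun u u' v => by simp [add_mul])
    (fun c u v => by simp)
    (fun u v v' => by simp only [map_add, mul_add]; noncomm_ring)
    (fun c u v => by
      simp only [map_smul, mul_smul_comm, ← smul_sub]))

@[simp] lemma gam_tmul (σ : MvPolynomial X k →ₗ[k] FreeAlgebra k X) (x : X)
    (u v : MvPolynomial X k) :
    gam σ x (u ⊗ₜ v) = σ u * (FreeAlgebra.ι k x * σ v - σ (MvPolynomial.X x * v)) := by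
  simp [gam]

lemma gam_left (σ : MvPolynomial X k →ₗ[k] FreeAlgebra k X) (hσ : ∀ p, abel k X (σ p) = p)
    (x y : X) (θ : MvPolynomial X k ⊗[k] MvPolynomial X k) :
    gam σ x ((MvPolynomial.X y ⊗ₜ 1) * θ) - FreeAlgebra.ι k y * gam σ x θ ∈
      commIdeal k X ^ 2 := by
  induction θ using TensorProduct.induction_on with
  | zero => simp
  | tmul u v =>
    rw [Algebra.TensorProduct.tmul_mul_tmul, one_mul, gam_tmul, gam_tmul, ← mul_assoc, ← sub_mul,
      pow_two]
    apply Submodule.mul_mem_mul
    · rw [mem_commIdeal]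
      simp [hσ]
    · rw [mem_commIdeal]
      simp [hσ]
  | add a b ha hb =>
    have := add_mem ha hb
    rw [mul_add, map_add, map_add, mul_add]
    convert this using 1
    abel

/-- the defect in the fundamental formula. -/
noncomputable def defect (σ : MvPolynomial X k →ₗ[k] FreeAlgebra k X) (S : Finset X)
    (g : FreeAlgebra k X) : FreeAlgebra k X :=
  g - σ (abel k X g) - ∑ x ∈ S, gam σ x (fox x g)

lemma defect_step (σ : MvPolynomial X k →ₗ[k] FreeAlgebra k X)
    (hσ : ∀ p, abel k X (σ p) = p) (hσ1 : σ 1 = 1) (f : FreeAlgebra k X) :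
    ∀ g, (∀ᶠ S in Filter.atTop, defect σ S g ∈ commIdeal k X ^ 2) →
      ∀ᶠ S in Filter.atTop, defect σ S (f * g) ∈ commIdeal k X ^ 2 := by
  classical
  induction f using FreeAlgebra.induction with
  | grade0 r =>
    intro g hg
    filter_upwards [hg] with S hS
    have e : defect σ S (algebraMap k (FreeAlgebra k X) r * g) = r • defect σ S g := by
      unfold defect
      rw [← Algebra.smul_def]
      simp only [fox_smul, map_smul, smul_sub, Finset.smul_sum]
    rw [e]
    exact Submodule.smul_mem _ _ hS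
  | grade1 y =>
    intro g hg
    filter_upwards [hg, Filter.eventually_ge_atTop {y}] with S hS hy
    have hyS : y ∈ S := hy (Finset.mem_singleton_self y)
    have e : defect σ S (FreeAlgebra.ι k y * g) = FreeAlgebra.ι k y * defect σ S g -
        ∑ x ∈ S, (gam σ x ((MvPolynomial.X y ⊗ₜ 1) * fox x g) -
          FreeAlgebra.ι k y * gam σ x (fox x g)) := by
      have e1 : ∑ x ∈ S, gam σ x (fox x (FreeAlgebra.ι k y * g)) =
          ∑ x ∈ S, gam σ x ((MvPolynomial.X y ⊗ₜ 1) * fox x g) +
            (FreeAlgebra.ι k y * σ (abel k X g) - σ (MvPolynomial.X y * abel k X g)) := by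
        have e2 : ∀ x ∈ S, gam σ x (fox x (FreeAlgebra.ι k y * g)) =
            gam σ x ((MvPolynomial.X y ⊗ₜ 1) * fox x g) +
              (if y = x then (FreeAlgebra.ι k y * σ (abel k X g) -
                σ (MvPolynomial.X y * abel k X g)) else 0) := by
          intro x _
          rw [fox_mul, map_add, abel_ι, fox_ι]
          congr 1
          by_cases hxy : y = x
          · rw [if_pos hxy, if_pos hxy, one_mul, gam_tmul, hσ1, one_mul, hxy]
          · rw [if_neg hxy, if_neg hxy, zero_mul, map_zero]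
        rw [Finset.sum_congr rfl e2, Finset.sum_add_distrib, Finset.sum_ite_eq, if_pos hyS]
      unfold defect
      rw [e1, map_mul, abel_ι, Finset.sum_sub_distrib, mul_sub, mul_sub, Finset.mul_sum]
      abel
    rw [e]
    exact sub_mem (commIdeal_sq_mul_left _ hS)
      (Submodule.sum_mem _ fun x _ => gam_left σ hσ x y _)
  | mul f1 f2 h1 h2 =>
    intro g hg
    rw [mul_assoc]
    exact h1 _ (h2 _ hg)
  | add f1 f2 h1 h2 =>
    intro g hg
    filter_upwards [h1 g hg, h2 g hg] with S hS1 hS2
    have e : defect σ S ((f1 + f2) * g) = defect σ S (f1 * g) + defect σ S (f2 * g) := by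
      unfold defect
      rw [add_mul]
      simp only [fox_add, map_add, Finset.sum_add_distrib]
      abel
    rw [e]
    exact add_mem hS1 hS2

/-- An element of the commutator ideal all of whose partial derivatives vanish at the generic
commuting point lies in the square of the commutator ideal. -/
theorem mem_sq_of_fox_eq_zero {f : FreeAlgebra k X} (h0 : abel k X f = 0)
    (h1 : ∀ x, fox x f = 0) : f ∈ commIdeal k X ^ 2 := by
  obtain ⟨σ, hσ, hσ1⟩ := exists_section (k := k) (X := X)
  have h := defect_step σ hσ hσ1 f 1 (Filter.Eventually.of_forall fun S => by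
    have e : defect σ S 1 = 0 := by
      unfold defect
      rw [map_one, hσ1, sub_self, zero_sub, neg_eq_zero]
      apply Finset.sum_eq_zero
      intro x _
      have := fox_algebraMap (k := k) x (1 : k)
      rw [map_one] at this
      rw [this, map_zero]
    rw [e]
    exact zero_mem _)
  obtain ⟨S, hS⟩ := h.exists
  rw [mul_one] at hS
  have e : defect σ S f = f := by
    unfold defect
    simp [h0, h1]
  rwa [e] at hS

end Pool.Agent.MP_35f30a_al
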