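import Mathlib

/-!
# Nonzero elements of `P ⊗ P` act surjectively on `End_k(K)`

`P = k[x_i : i ∈ X]`, `K = Frac P`, `E = End_k(K)`, where `u ⊗ v` acts by `H ↦ u ∘ H ∘ v`.
-/

set_option autoImplicit false
set_option linter.unusedSectionVars false

open scoped TensorProduct

namespace Pool.Agent.MP_35f30a_al

section Surj

variable (k : Type*) [Field k] (P : Type*) [CommRing P] [IsDomain P] [Algebra k P]
  (K : Type*) [Field K] [Algebra k K] [Algebra P K] [IsScalarTower k P K]

/-- the action of `P ⊗ P` on `End_k(K)`: `u ⊗ v` acts by `H ↦ u ∘ H ∘ v`. -/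
noncomputable def act : P ⊗[k] P →ₐ[k] Module.End k (Module.End k K) :=
  Algebra.TensorProduct.lift
    ((Algebra.lmul k (Module.End k K)).comp
      ((Algebra.lmul k K).comp (IsScalarTower.toAlgHom k P K)))
    (AlgHom.ofLinearMap
      ((LinearMap.mul k (Module.End k K)).flip.comp
        ((Algebra.lmul k K).comp (IsScalarTower.toAlgHom k P K)).toLinearMap)
      (by ext; simp)
      (by
        intro x y
        ext H z
        simp [mul_comm, mul_left_comm]))
    (by
      intro x y
      refine LinearMap.ext fun H => ?_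
      refine LinearMap.ext fun z => ?_
      simp)

@[simp] lemma act_tmul (u v : P) (H : Module.End k K) (z : K) :
    act k P K (u ⊗ₜ v) H z = algebraMap P K u * H (algebraMap P K v * z) := by
  simp [act]

/-- the natural map `P ⊗ P → K ⊗ K`. -/
noncomputable def emb : P ⊗[k] P →ₐ[k] K ⊗[k] K :=
  Algebra.TensorProduct.map (IsScalarTower.toAlgHom k P K) (IsScalarTower.toAlgHom k P K)

@[simp] lemma emb_tmul (u v : P) :
    emb k P K (u ⊗ₜ v) = algebraMap P K u ⊗ₜ algebraMap P K v := by
  simp [emb]

lemma emb_injective [IsFractionRing P K] : Function.Injective (emb k P K) := by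
  have h : Function.Injective (algebraMap P K) := IsFractionRing.injective P K
  have := TensorProduct.map_injective_of_flat_flat
    (IsScalarTower.toAlgHom k P K).toLinearMap (IsScalarTower.toAlgHom k P K).toLinearMap h h
  exact this

lemma exists_clear [IsFractionRing P K] (z : K ⊗[k] K) :
    ∃ (p q : P) (z' : P ⊗[k] P), p ∈ nonZeroDivisors P ∧ q ∈ nonZeroDivisors P ∧
      (algebraMap P K p ⊗ₜ[k] algebraMap P K q) * z = emb k P K z' := by
  induction z using TensorProduct.induction_on with
  | zero => exact ⟨1, 1, 0, one_mem _, one_mem _, by simp⟩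
  | tmul a b =>
    obtain ⟨a1, a2, h2, rfl⟩ := IsFractionRing.div_surjective (A := P) a
    obtain ⟨b1, b2, g2, rfl⟩ := IsFractionRing.div_surjective (A := P) b
    refine ⟨a2, b2, a1 ⊗ₜ b1, h2, g2, ?_⟩
    have ha : algebraMap P K a2 ≠ 0 := IsFractionRing.to_map_ne_zero_of_mem_nonZeroDivisors h2
    have hb : algebraMap P K b2 ≠ 0 := IsFractionRing.to_map_ne_zero_of_mem_nonZeroDivisors g2
    rw [Algebra.TensorProduct.tmul_mul_tmul, emb_tmul, mul_div_cancel₀ _ ha,
      mul_div_cancel₀ _ hb]
  | add x y hx hy =>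
    obtain ⟨p, q, z1, hp, hq, h1⟩ := hx
    obtain ⟨p', q', z2, hp', hq', h2⟩ := hy
    refine ⟨p * p', q * q', (p' ⊗ₜ q') * z1 + (p ⊗ₜ q) * z2, mul_mem hp hp', mul_mem hq hq', ?_⟩
    have e : (algebraMap P K (p * p') ⊗ₜ[k] algebraMap P K (q * q')) =
        (algebraMap P K p ⊗ₜ[k] algebraMap P K q) *
          (algebraMap P K p' ⊗ₜ[k] algebraMap P K q') := by
      rw [Algebra.TensorProduct.tmul_mul_tmul, map_mul, map_mul]
    rw [e, map_add, map_mul (emb k P K), map_mul (emb k P K), ← h1, ← h2, emb_tmul, emb_tmul]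
    ring

lemma mul_injective [IsFractionRing P K] [NoZeroDivisors (P ⊗[k] P)] {θ : P ⊗[k] P}
    (hθ : θ ≠ 0) {z : K ⊗[k] K} (hz : emb k P K θ * z = 0) : z = 0 := by
  obtain ⟨p, q, z', hp, hq, h⟩ := exists_clear k P K z
  have ha : algebraMap P K p ≠ 0 := IsFractionRing.to_map_ne_zero_of_mem_nonZeroDivisors hp
  have hb : algebraMap P K q ≠ 0 := IsFractionRing.to_map_ne_zero_of_mem_nonZeroDivisors hq
  have h0 : emb k P K (θ * z') = 0 := by
    rw [map_mul, ← h]
    calc emb k P K θ * ((algebraMap P K p ⊗ₜ[k] algebraMap P K q) * z)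
        = (algebraMap P K p ⊗ₜ[k] algebraMap P K q) * (emb k P K θ * z) := by ring
      _ = 0 := by rw [hz, mul_zero]
  have h1 : θ * z' = 0 := by
    apply emb_injective k P K
    rw [h0, map_zero]
  have h2 : z' = 0 := by
    rcases mul_eq_zero.mp h1 with h | h
    · exact absurd h hθ
    · exact h
  rw [h2, map_zero] at h
  calc z = ((algebraMap P K p)⁻¹ ⊗ₜ[k] (algebraMap P K q)⁻¹) *
        ((algebraMap P K p ⊗ₜ[k] algebraMap P K q) * z) := by
        rw [← mul_assoc, Algebra.TensorProduct.tmul_mul_tmul, inv_mul_cancel₀ ha,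
          inv_mul_cancel₀ hb, ← Algebra.TensorProduct.one_def, one_mul]
    _ = 0 := by rw [h, mul_zero]

/-- the `K`-linear extension of `H ∈ End_k(K)` to `K ⊗ K → K`, `a ⊗ b ↦ a H(b)`. -/
noncomputable def tilde (H : Module.End k K) : K ⊗[k] K →ₗ[K] K :=
  TensorProduct.AlgebraTensorModule.lift
    { toFun := fun a => a • H
      map_add' := fun a b => add_smul a b H
      map_smul' := fun a b => by simp [mul_smul] }

@[simp] lemma tilde_tmul (H : Module.End k K) (a b : K) :
    tilde k K H (a ⊗ₜ b) = a * H b := by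
  simp [tilde]

lemma act_eq_tilde (θ : P ⊗[k] P) (H : Module.End k K) (b : K) :
    act k P K θ H b = tilde k K H (emb k P K θ * (1 ⊗ₜ b)) := by
  induction θ using TensorProduct.induction_on with
  | zero => simp
  | tmul u v => simp
  | add x y hx hy => simp [add_mul, hx, hy]

/-- nonzero elements of `P ⊗ P` act surjectively on `End_k(K)`. -/
theorem act_surjective [IsFractionRing P K] [NoZeroDivisors (P ⊗[k] P)] {θ : P ⊗[k] P}
    (hθ : θ ≠ 0) : Function.Surjective (act k P K θ) := by
  intro G
  have hinj : LinearMap.ker (LinearMap.mulLeft K (emb k P K θ)) = ⊥ := by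
    rw [LinearMap.ker_eq_bot']
    intro z hz
    exact mul_injective k P K hθ hz
  obtain ⟨r, hr⟩ := LinearMap.exists_leftInverse_of_injective _ hinj
  have hr' : ∀ z, r (emb k P K θ * z) = z := fun z => by
    have := LinearMap.congr_fun hr z
    simpa using this
  let H : Module.End k K :=
    { toFun := fun b => tilde k K G (r (1 ⊗ₜ b))
      map_add' := fun a b => by simp [TensorProduct.tmul_add]
      map_smul' := fun c b => by
        have e : (1 : K) ⊗ₜ[k] (c • b) = (algebraMap k K c) • ((1 : K) ⊗ₜ[k] b) := by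
          rw [TensorProduct.tmul_smul, algebraMap_smul]
        rw [e, map_smul, map_smul, algebraMap_smul]
        rfl }
  have hH : ∀ z, tilde k K H z = tilde k K G (r z) := by
    intro z
    induction z using TensorProduct.induction_on with
    | zero => simp
    | tmul a b =>
      have e : a ⊗ₜ[k] b = a • ((1 : K) ⊗ₜ[k] b) := by
        rw [TensorProduct.smul_tmul', smul_eq_mul, mul_one]
      rw [tilde_tmul, e, map_smul, map_smul, smul_eq_mul]
      rfl
    | add x y hx hy => simp [hx, hy]
  refine ⟨H, ?_⟩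
  refine LinearMap.ext fun b => ?_
  rw [act_eq_tilde, hH, hr']
  simp

end Surj

instance (k X : Type*) [Field k] :
    NoZeroDivisors (MvPolynomial X k ⊗[k] MvPolynomial X k) := by
  have : IsDomain (MvPolynomial X k ⊗[k] MvPolynomial X k) :=
    (MvPolynomial.tensorEquivSum k X X k).toRingEquiv.isDomain_iff.mpr inferInstance
  infer_instance

end Pool.Agent.MP_35f30a_al
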