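import Pool.Agent.MP_35f30a_al.Filt
import Pool.Agent.MP_35f30a_al.Tensor

/-!
# Proper ideals generated by elements with a dominating first order part
-/

set_option autoImplicit false
set_option linter.unusedSectionVars false

open scoped TensorProduct
open LaurentPolynomial

namespace Pool.Agent.MP_35f30a_al

section Weights

variable {k : Type*} [Field k] {X : Type*}

/-- The decomposition of the free algebra into homogeneous components with respect to the weights
`w : X → ℤ`, as the algebra homomorphism `k⟨X⟩ → k⟨X⟩[T,T⁻¹]` that sends `x` to `x T^{w x}`. -/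
noncomputable def wt (w : X → ℤ) : FreeAlgebra k X →ₐ[k] (FreeAlgebra k X)[T;T⁻¹] :=
  FreeAlgebra.lift k fun x => C (FreeAlgebra.ι k x) * T (w x)

/-- The homogeneous component of weight `W` of `f`, where the letter `x` has weight `w x`:
the coefficient of `T^W` in `wt w f`. -/
noncomputable def comp (w : X → ℤ) (W : ℤ) (f : FreeAlgebra k X) : FreeAlgebra k X :=
  (wt w f).coeff W

/-- the commutative version of `wt`. -/
noncomputable def wtP (w : X → ℤ) : MvPolynomial X k →ₐ[k] (MvPolynomial X k)[T;T⁻¹] :=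
  MvPolynomial.aeval fun x => C (MvPolynomial.X x) * T (w x)

lemma map_wt (w : X → ℤ) (f : FreeAlgebra k X) :
    AddMonoidAlgebra.mapAlgHom ℤ (abel k X) (wt w f) = wtP w (abel k X f) := by
  have h : (AddMonoidAlgebra.mapAlgHom ℤ (abel k X)).comp (wt w) = (wtP w).comp (abel k X) := by
    apply FreeAlgebra.hom_ext
    funext x
    simp only [Function.comp_apply, AlgHom.comp_apply, wt, FreeAlgebra.lift_ι_apply, map_mul,
      abel_ι, wtP, MvPolynomial.aeval_X]
    congr 1
    · exact (AddMonoidAlgebra.mapAlgHom_single _ _ _).trans (by rw [abel_ι]; rfl)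
    · exact (AddMonoidAlgebra.mapAlgHom_single _ _ _).trans (by rw [map_one]; rfl)
  exact DFunLike.congr_fun h f

lemma abel_comp (w : X → ℤ) {f : FreeAlgebra k X} {c : k}
    (hf : abel k X f = MvPolynomial.C c) {W : ℤ} (hW : W ≠ 0) :
    abel k X (comp w W f) = 0 := by
  have h := congrArg (fun p => AddMonoidAlgebra.coeff p W) (map_wt w f)
  simp only [AddMonoidAlgebra.coeff_mapAlgHom] at h
  rw [comp, h, hf, ← MvPolynomial.algebraMap_eq, AlgHom.commutes]
  rw [LaurentPolynomial.algebraMap_apply, LaurentPolynomial.C_apply, if_neg]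
  exact hW

end Weights

section Delta

variable {k : Type*} [Field k] {X : Type*} {E : Type*} [Ring E] [Algebra k E]

/-- `n ↦ T^{-n}` as a monoid homomorphism. -/
noncomputable def negT (E : Type*) [Ring E] : Multiplicative ℤ →* E[T;T⁻¹] where
  toFun n := T (-(Multiplicative.toAdd n))
  map_one' := by simp
  map_mul' a b := by rw [toAdd_mul, neg_add, T_add]

lemma comm_negT (f : E[T;T⁻¹]) (n : Multiplicative ℤ) : Commute f (negT E n) :=
  (commute_T _ f).symm

/-- `Σ_W f_W T^W ↦ Σ_W φ(f_W) T^{-W}`. -/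
noncomputable def lam (φ : FreeAlgebra k X →+* E[T;T⁻¹]) :
    (FreeAlgebra k X)[T;T⁻¹] →+* E[T;T⁻¹] :=
  AddMonoidAlgebra.liftNCRingHom φ (negT E) (fun _ _ => comm_negT _ _)

lemma lam_single (φ : FreeAlgebra k X →+* E[T;T⁻¹]) (n : ℤ) (f : FreeAlgebra k X) :
    lam φ (AddMonoidAlgebra.single n f) = φ f * T (-n) :=
  AddMonoidAlgebra.liftNCRingHom_single _ _ _ _ _

/-- `Σ_W f_W ↦ Σ_W φ(f_W) T^{-W}`. -/
noncomputable def Delta (w : X → ℤ) (φ : FreeAlgebra k X →+* E[T;T⁻¹]) :
    FreeAlgebra k X →+* E[T;T⁻¹] :=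
  (lam φ).comp (wt w).toRingHom

lemma Delta_def (w : X → ℤ) (φ : FreeAlgebra k X →+* E[T;T⁻¹]) (f : FreeAlgebra k X) :
    Delta w φ f = lam φ (wt w f) := rfl

lemma Delta_apply (w : X → ℤ) (φ : FreeAlgebra k X →+* E[T;T⁻¹]) (f : FreeAlgebra k X) :
    Delta w φ f = ∑ W ∈ (wt w f).coeff.support, φ (comp w W f) * T (-W) := by
  rw [Delta_def]
  conv_lhs => rw [← AddMonoidAlgebra.sum_coeff_single (wt w f)]
  rw [Finsupp.sum, map_sum]
  apply Finset.sum_congr rfl
  intro W _
  rw [lam_single]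
  rfl

lemma Delta_ι (w : X → ℤ) (φ : FreeAlgebra k X →+* E[T;T⁻¹]) (x : X) :
    Delta w φ (FreeAlgebra.ι k x) = φ (FreeAlgebra.ι k x) * T (-(w x)) := by
  have : wt w (FreeAlgebra.ι k x) = AddMonoidAlgebra.single (w x) (FreeAlgebra.ι k x) := by
    simp only [wt, FreeAlgebra.lift_ι_apply]
    exact (LaurentPolynomial.single_eq_C_mul_T _ _).symm
  rw [Delta_def, this, lam_single]

lemma Delta_algebraMap (w : X → ℤ) (φ : FreeAlgebra k X →ₐ[k] E[T;T⁻¹]) (c : k) :
    Delta w (φ : FreeAlgebra k X →+* E[T;T⁻¹]) (algebraMap k _ c) = C (algebraMap k E c) := by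
  rw [Delta_def, AlgHom.commutes, LaurentPolynomial.algebraMap_apply]
  refine (lam_single _ _ _).trans ?_
  rw [RingHom.coe_coe, AlgHom.commutes, neg_zero, T_zero, mul_one,
    LaurentPolynomial.algebraMap_apply]

end Delta

section Step

variable {k : Type*} [Field k] {X : Type*} {E : Type*} [Ring E] [Algebra k E]
  (ρ : MvPolynomial X k →ₐ[k] E) {x0 : X} {m : ℤ} (w : X → ℤ)

lemma Delta_bounded (hm : 0 < m) (f : FreeAlgebra k X) :
    ∃ L : ℕ, ∀ Z ∈ Fil E 0, Delta w (pert ρ x0 m Z : FreeAlgebra k X →+* E[T;T⁻¹]) f ∈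
      Fil E (-(L : ℤ)) := by
  induction f using FreeAlgebra.induction with
  | grade0 r =>
    refine ⟨0, fun Z _ => ?_⟩
    rw [Delta_algebraMap]
    simpa using C_mem (algebraMap k E r)
  | grade1 x =>
    refine ⟨(w x).natAbs, fun Z hZ => ?_⟩
    rw [Delta_ι]
    exact Fil_mono (by omega) (Fil_mul (pert_mem ρ hm.le hZ _) (T_mem (-(w x))))
  | mul f g hf hg =>
    obtain ⟨L, hL⟩ := hf
    obtain ⟨M, hM⟩ := hg
    refine ⟨L + M, fun Z hZ => ?_⟩
    rw [map_mul]
    exact Fil_mono (by push_cast; omega) (Fil_mul (hL Z hZ) (hM Z hZ))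
  | add f g hf hg =>
    obtain ⟨L, hL⟩ := hf
    obtain ⟨M, hM⟩ := hg
    refine ⟨L + M, fun Z hZ => ?_⟩
    rw [map_add]
    exact add_mem (Fil_mono (by push_cast; omega) (hL Z hZ))
      (Fil_mono (by push_cast; omega) (hM Z hZ))

/-- the improvement step. -/
lemma step (hm : 0 < m) (a : FreeAlgebra k X)
    (h2 : ∀ W, m < W → comp w W a ∈ commIdeal k X ^ ((W / m).toNat + 1))
    (hma : comp w m a ≠ 0)
    (hsurj : ∀ e : E, ∃ (H : E) (L : FreeAlgebra k X → E),
      (∀ r : k, L (algebraMap k _ r) = 0) ∧ L (FreeAlgebra.ι k x0) = H ∧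
      (∀ x, x ≠ x0 → L (FreeAlgebra.ι k x) = 0) ∧ (∀ f g, L (f + g) = L f + L g) ∧
      (∀ f g, L (f * g) = ρ (abel k X f) * L g + L f * ρ (abel k X g)) ∧
      L (comp w m a) = e)
    {n : ℤ} (hn : 0 ≤ n) {Z : E[T;T⁻¹]} (hZ : Z ∈ Fil E 0)
    (hZn : Delta w (pert ρ x0 m Z : FreeAlgebra k X →+* E[T;T⁻¹]) a ∈ Fil E n) :
    ∃ Z' ∈ Fil E 0,
      Delta w (pert ρ x0 m Z' : FreeAlgebra k X →+* E[T;T⁻¹]) a ∈ Fil E (n + 1) := by
  classical
  obtain ⟨e, he⟩ := exists_lead hZn
  obtain ⟨H, L, hL0, hL1, hL2, hLa, hLm, hLe⟩ := hsurj (-e)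
  have hZ' : Z + T n * C H ∈ Fil E 0 :=
    add_mem hZ (Fil_mono hn (by simpa using Fil_mul (T_mem n) (C_mem H)))
  have hd : Z + T n * C H - Z ∈ Fil E n := by
    rw [add_sub_cancel_left]
    simpa using Fil_mul (T_mem n) (C_mem H)
  refine ⟨Z + T n * C H, hZ', ?_⟩
  set φ := pert ρ x0 m Z with hφ
  set φ' := pert ρ x0 m (Z + T n * C H) with hφ'
  have hmS : m ∈ (wt w a).coeff.support := by
    rw [Finsupp.mem_support_iff]
    exact hma
  have key : ∀ W ∈ (wt w a).coeff.support,
      (φ' (comp w W a) - φ (comp w W a)) * T (-W) -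
        (if m = W then T n * C (-e) else 0) ∈ Fil E (n + 1) := by
    intro W _
    rcases lt_trichotomy W m with hW | hW | hW
    · rw [if_neg hW.ne', sub_zero]
      have := Fil_mul (pert_diff_mem ρ (x0 := x0) hm.le hZ hZ' hd (comp w W a)) (T_mem (-W))
      exact Fil_mono (by omega) this
    · subst hW
      rw [if_pos rfl]
      have h := pert_first_order ρ (x0 := x0) hm hn hZ H L hL0 hL1 hL2 hLa hLm (comp w W a)
      have h' := Fil_mul h (T_mem (-W))
      have e1 : W + n + 1 + -W = n + 1 := by ring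
      rw [e1] at h'
      have e2 : T (W + n) * C (-e) * T (-W) = T n * C (-e) := by
        rw [mul_assoc, ← (commute_T (-W) (C (-e))).eq, ← mul_assoc, ← T_add]
        congr 2
        ring
      rw [hLe, sub_mul, e2] at h'
      exact h'
    · rw [if_neg hW.ne, sub_zero]
      have h := (pert_pow_mem ρ (x0 := x0) hm.le hZ hZ' hd _ _ (h2 W hW)).2
      have h' := Fil_mul h (T_mem (-W))
      have hq : 0 ≤ W / m := Int.ediv_nonneg (by omega) hm.le
      have hlt : W < m * (W / m + 1) := by
        have := Int.lt_ediv_add_one_mul_self W hm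
        linarith [mul_comm (W / m + 1) m]
      rw [Int.toNat_of_nonneg hq] at h'
      exact Fil_mono (by omega) h'
  have hsum := sum_mem key
  rw [Finset.sum_sub_distrib, Finset.sum_ite_eq, if_pos hmS] at hsum
  have e3 : Delta w (φ' : FreeAlgebra k X →+* E[T;T⁻¹]) a =
      (∑ W ∈ (wt w a).coeff.support, (φ' (comp w W a) - φ (comp w W a)) * T (-W)
        - T n * C (-e)) +
      (Delta w (φ : FreeAlgebra k X →+* E[T;T⁻¹]) a - T n * C e) := by
    rw [Delta_apply, Delta_apply]
    simp only [RingHom.coe_coe, sub_mul, Finset.sum_sub_distrib, map_neg, mul_neg]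
    abel
  rw [e3]
  exact add_mem hsum he

end Step

section Final

variable {k : Type*} [Field k] {X : Type*}

/-- if the abelianisation of `a` is not constant, then `a` generates a proper ideal. -/
lemma proper_of_abel {a : FreeAlgebra k X} (ha : ¬ ∃ c, abel k X a = MvPolynomial.C c) :
    TwoSidedIdeal.span ({a} : Set (FreeAlgebra k X)) ≠ ⊤ := by
  intro htop
  have hu : ¬ IsUnit (abel k X a) := by
    intro h
    rw [MvPolynomial.isUnit_iff_eq_C_of_isReduced] at h
    obtain ⟨c, _, hc⟩ := h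
    exact ha ⟨c, hc⟩
  have h1 : (1 : FreeAlgebra k X) ∈ TwoSidedIdeal.span ({a} : Set (FreeAlgebra k X)) := by
    rw [htop]; trivial
  have key : ∀ f ∈ TwoSidedIdeal.span ({a} : Set (FreeAlgebra k X)),
      abel k X f ∈ Ideal.span {abel k X a} := by
    intro f hf
    induction hf using TwoSidedIdeal.span_induction with
    | mem x h =>
      rw [Set.mem_singleton_iff] at h
      subst h
      exact Ideal.subset_span rfl
    | zero => rw [map_zero]; exact zero_mem _
    | add x y _ _ hx hy => rw [map_add]; exact add_mem hx hy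
    | neg x _ hx => rw [map_neg]; exact neg_mem hx
    | left_absorb b x _ hx => rw [map_mul]; exact Ideal.mul_mem_left _ _ hx
    | right_absorb b x _ hx => rw [map_mul]; exact Ideal.mul_mem_right _ _ hx
  have h2 := key 1 h1
  rw [map_one, Ideal.mem_span_singleton] at h2
  exact hu (isUnit_of_dvd_one h2)

/-- Main theorem. -/
theorem proper_of_dominant (w : X → ℤ) (a : FreeAlgebra k X) (m : ℤ) (hm : 0 < m)
    (h1 : comp w m a ∉ commIdeal k X ^ 2)
    (h2 : ∀ W, m < W → comp w W a ∈ commIdeal k X ^ ((W / m).toNat + 1)) :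
    TwoSidedIdeal.span ({a} : Set (FreeAlgebra k X)) ≠ ⊤ := by
  classical
  by_cases hc : ∃ c, abel k X a = MvPolynomial.C c
  swap
  · exact proper_of_abel hc
  obtain ⟨c, hc⟩ := hc
  -- a nonvanishing partial derivative
  have hab : abel k X (comp w m a) = 0 := abel_comp w hc hm.ne'
  obtain ⟨x0, hx0⟩ : ∃ x0, fox x0 (comp w m a) ≠ 0 := by
    by_contra hcon
    push Not at hcon
    exact h1 (mem_sq_of_fox_eq_zero hab hcon)
  have hma : comp w m a ≠ 0 := by
    intro h
    apply h1
    rw [h]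
    exact zero_mem _
  let K := FractionRing (MvPolynomial X k)
  let ρ : MvPolynomial X k →ₐ[k] Module.End k K :=
    (Algebra.lmul k K).comp (IsScalarTower.toAlgHom k (MvPolynomial X k) K)
  have hact : ∀ (u v : MvPolynomial X k) (H : Module.End k K),
      act k (MvPolynomial X k) K (u ⊗ₜ v) H = ρ u * H * ρ v := by
    intro u v H
    refine LinearMap.ext fun z => ?_
    rw [act_tmul]
    rfl
  have hactmul : ∀ (u v : MvPolynomial X k) (θ : MvPolynomial X k ⊗[k] MvPolynomial X k)
      (H : Module.End k K),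
      act k (MvPolynomial X k) K ((u ⊗ₜ v) * θ) H =
        ρ u * act k (MvPolynomial X k) K θ H * ρ v := by
    intro u v θ H
    rw [map_mul]
    change act k (MvPolynomial X k) K (u ⊗ₜ v) (act k (MvPolynomial X k) K θ H) = _
    rw [hact]
  have hsurj : ∀ e : Module.End k K, ∃ (H : Module.End k K)
      (L : FreeAlgebra k X → Module.End k K),
      (∀ r : k, L (algebraMap k _ r) = 0) ∧ L (FreeAlgebra.ι k x0) = H ∧
      (∀ x, x ≠ x0 → L (FreeAlgebra.ι k x) = 0) ∧ (∀ f g, L (f + g) = L f + L g) ∧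
      (∀ f g, L (f * g) = ρ (abel k X f) * L g + L f * ρ (abel k X g)) ∧
      L (comp w m a) = e := by
    intro e
    obtain ⟨H, hH⟩ := act_surjective k (MvPolynomial X k) K hx0 e
    refine ⟨H, fun f => act k (MvPolynomial X k) K (fox x0 f) H, ?_, ?_, ?_, ?_, ?_, hH⟩
    · intro r
      simp only [fox_algebraMap, map_zero]
      rfl
    · simp only [fox_ι, if_pos]
      rw [map_one]
      rfl
    · intro x hx
      simp only [fox_ι, if_neg hx, map_zero]
      rfl
    · intro f g
      simp only [fox_add, map_add]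
      rfl
    · intro f g
      simp only [fox_mul, map_add, LinearMap.add_apply]
      rw [hactmul, mul_comm (fox x0 f), hactmul, map_one, one_mul, mul_one]
  -- approximate zeros
  have hex : ∀ n : ℕ, ∃ Z ∈ Fil (Module.End k K) 0,
      Delta w (pert ρ x0 m Z : FreeAlgebra k X →+* (Module.End k K)[T;T⁻¹]) a ∈
        Fil (Module.End k K) n := by
    intro n
    induction n with
    | zero =>
      refine ⟨0, zero_mem _, ?_⟩
      rw [Delta_apply]
      refine sum_mem fun W hW => ?_
      have hp := pert_sub_mem ρ (x0 := x0) (m := m) hm.le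
        (zero_mem (Fil (Module.End k K) 0)) (comp w W a)
      have hp' : (pert ρ x0 m 0 : FreeAlgebra k X →ₐ[k] (Module.End k K)[T;T⁻¹]) (comp w W a) =
          C (ρ (abel k X (comp w W a))) := by
        generalize comp w W a = f
        induction f using FreeAlgebra.induction with
        | grade0 r => rw [AlgHom.commutes, AlgHom.commutes, AlgHom.commutes, algebraMap_eq]
        | grade1 x => rw [pert_ι, abel_ι]; simp
        | mul f g hf hg => rw [map_mul, map_mul, map_mul, map_mul, hf, hg]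
        | add f g hf hg => rw [map_add, map_add, map_add, map_add, hf, hg]
      rw [RingHom.coe_coe, hp']
      by_cases hW0 : W = 0
      · subst hW0
        simpa using C_mem (ρ (abel k X (comp w 0 a)))
      · rw [abel_comp w hc hW0, map_zero, map_zero, zero_mul]
        exact zero_mem _
    | succ n ih =>
      obtain ⟨Z, hZ, hZn⟩ := ih
      obtain ⟨Z', hZ', h'⟩ := step ρ (x0 := x0) w hm a h2 hma hsurj (by positivity) hZ hZn
      exact ⟨Z', hZ', by simpa using h'⟩
  intro htop
  have hone : (1 : FreeAlgebra k X) ∈ TwoSidedIdeal.span ({a} : Set (FreeAlgebra k X)) := by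
    rw [htop]; trivial
  have key : ∀ f ∈ TwoSidedIdeal.span ({a} : Set (FreeAlgebra k X)), ∃ L : ℕ, ∀ n : ℤ,
      ∀ Z ∈ Fil (Module.End k K) 0,
        Delta w (pert ρ x0 m Z : FreeAlgebra k X →+* (Module.End k K)[T;T⁻¹]) a ∈
          Fil (Module.End k K) n →
        Delta w (pert ρ x0 m Z : FreeAlgebra k X →+* (Module.End k K)[T;T⁻¹]) f ∈
          Fil (Module.End k K) (n - L) := by
    intro f hf
    induction hf using TwoSidedIdeal.span_induction with
    | mem x h =>
      rw [Set.mem_singleton_iff] at h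
      subst h
      exact ⟨0, fun n Z _ h => by simpa using h⟩
    | zero => exact ⟨0, fun n Z _ _ => by rw [map_zero]; exact zero_mem _⟩
    | add x y _ _ hx hy =>
      obtain ⟨L, hL⟩ := hx
      obtain ⟨M, hM⟩ := hy
      refine ⟨L + M, fun n Z hZ h => ?_⟩
      rw [map_add]
      exact add_mem (Fil_mono (by push_cast; omega) (hL n Z hZ h))
        (Fil_mono (by push_cast; omega) (hM n Z hZ h))
    | neg x _ hx =>
      obtain ⟨L, hL⟩ := hx
      exact ⟨L, fun n Z hZ h => by rw [map_neg]; exact neg_mem (hL n Z hZ h)⟩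
    | left_absorb b x _ hx =>
      obtain ⟨L, hL⟩ := hx
      obtain ⟨M, hM⟩ := Delta_bounded ρ (x0 := x0) w hm b
      refine ⟨L + M, fun n Z hZ h => ?_⟩
      rw [map_mul]
      exact Fil_mono (by push_cast; omega) (Fil_mul (hM Z hZ) (hL n Z hZ h))
    | right_absorb b x _ hx =>
      obtain ⟨L, hL⟩ := hx
      obtain ⟨M, hM⟩ := Delta_bounded ρ (x0 := x0) w hm b
      refine ⟨L + M, fun n Z hZ h => ?_⟩
      rw [map_mul]
      exact Fil_mono (by push_cast; omega) (Fil_mul (hL n Z hZ h) (hM Z hZ))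
  obtain ⟨L, hL⟩ := key 1 hone
  obtain ⟨Z, hZ, hZn⟩ := hex (L + 1)
  have := hL _ Z hZ hZn
  rw [map_one] at this
  apply one_notMem (E := Module.End k K)
  have e : (((L + 1 : ℕ) : ℤ) - (L : ℤ)) = 1 := by push_cast; ring
  rwa [e] at this

end Final

end Pool.Agent.MP_35f30a_al
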